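import Pool.Agent.R462.EQ.Scalar

set_option autoImplicit false

open Filter Topology

namespace Pool.Agent.R462.EQ

/-- The determinant of three vectors. -/
def det3 (u v w : Fin 3 → ℝ) : ℝ :=
  u 0 * (v 1 * w 2 - v 2 * w 1) - u 1 * (v 0 * w 2 - v 2 * w 0) + u 2 * (v 0 * w 1 - v 1 * w 0)

theorem hasDerivAt_det3 {u v w : ℝ → Fin 3 → ℝ} {u' v' w' : Fin 3 → ℝ} {s : ℝ}
    (hu : HasDerivAt u u' s) (hv : HasDerivAt v v' s) (hw : HasDerivAt w w' s) :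
    HasDerivAt (fun s => det3 (u s) (v s) (w s))
      (det3 u' (v s) (w s) + det3 (u s) v' (w s) + det3 (u s) (v s) w') s := by
  have U := fun i => hasDerivAt_pi.1 hu i
  have V := fun i => hasDerivAt_pi.1 hv i
  have W := fun i => hasDerivAt_pi.1 hw i
  unfold det3
  refine HasDerivAt.congr_deriv ((((U 0).fun_mul (((V 1).fun_mul (W 2)).fun_sub
    ((V 2).fun_mul (W 1)))).fun_sub ((U 1).fun_mul (((V 0).fun_mul (W 2)).fun_sub
    ((V 2).fun_mul (W 0))))).fun_add ((U 2).fun_mul (((V 0).fun_mul (W 1)).fun_sub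
    ((V 1).fun_mul (W 0))))) ?_
  ring

section frame

variable {c : ℝ} {k : ℝ → ℝ} {G T N : ℝ → Fin 3 → ℝ}

/-- The coordinates of the vector `V` in the frame `G s, T s, N s`. -/
noncomputable def ca (G T N : ℝ → Fin 3 → ℝ) (V : Fin 3 → ℝ) (s : ℝ) : ℝ :=
  det3 V (T s) (N s) / det3 (G 0) (T 0) (N 0)

noncomputable def cb (G T N : ℝ → Fin 3 → ℝ) (V : Fin 3 → ℝ) (s : ℝ) : ℝ :=
  det3 (G s) V (N s) / det3 (G 0) (T 0) (N 0)

noncomputable def ce (G T N : ℝ → Fin 3 → ℝ) (V : Fin 3 → ℝ) (s : ℝ) : ℝ :=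
  det3 (G s) (T s) V / det3 (G 0) (T 0) (N 0)

variable (hG : ∀ s, HasDerivAt G (T s) s)
  (hT : ∀ s, HasDerivAt T (-(c • G s) - k s • N s) s)
  (hN : ∀ s, HasDerivAt N (k s • T s) s)
include hG hT hN

theorem det_const (s : ℝ) : det3 (G s) (T s) (N s) = det3 (G 0) (T 0) (N 0) := by
  have h : ∀ s, HasDerivAt (fun s => det3 (G s) (T s) (N s)) 0 s := fun s => by
    refine HasDerivAt.congr_deriv (hasDerivAt_det3 (hG s) (hT s) (hN s)) ?_
    simp only [det3, Pi.sub_apply, Pi.neg_apply, Pi.smul_apply, smul_eq_mul]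
    ring
  exact is_const_of_deriv_eq_zero (fun s => (h s).differentiableAt) (fun s => (h s).deriv) s 0

omit hG in
theorem hasDerivAt_ca (V : Fin 3 → ℝ) (s : ℝ) :
    HasDerivAt (ca G T N V) (c * cb G T N V s) s := by
  refine HasDerivAt.congr_deriv ((hasDerivAt_det3 (hasDerivAt_const s V) (hT s) (hN s)).div_const
    (det3 (G 0) (T 0) (N 0))) ?_
  simp only [cb, det3, Pi.sub_apply, Pi.neg_apply, Pi.smul_apply, smul_eq_mul, Pi.zero_apply]
  ring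

omit hT in
theorem hasDerivAt_cb (V : Fin 3 → ℝ) (s : ℝ) :
    HasDerivAt (cb G T N V) (-ca G T N V s - k s * ce G T N V s) s := by
  refine HasDerivAt.congr_deriv ((hasDerivAt_det3 (hG s) (hasDerivAt_const s V) (hN s)).div_const
    (det3 (G 0) (T 0) (N 0))) ?_
  simp only [ca, ce, det3, Pi.smul_apply, smul_eq_mul, Pi.zero_apply]
  ring

omit hN in
theorem hasDerivAt_ce (V : Fin 3 → ℝ) (s : ℝ) :
    HasDerivAt (ce G T N V) (k s * cb G T N V s) s := by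
  refine HasDerivAt.congr_deriv ((hasDerivAt_det3 (hG s) (hT s) (hasDerivAt_const s V)).div_const
    (det3 (G 0) (T 0) (N 0))) ?_
  simp only [cb, det3, Pi.sub_apply, Pi.neg_apply, Pi.smul_apply, smul_eq_mul, Pi.zero_apply]
  ring

variable (hdet : det3 (G 0) (T 0) (N 0) ≠ 0)
include hdet

theorem cramer (V : Fin 3 → ℝ) (s : ℝ) :
    V = ca G T N V s • G s + cb G T N V s • T s + ce G T N V s • N s := by
  have h1 := det_const hG hT hN s
  have h2 : det3 (G s) (T s) (N s) ≠ 0 := by rw [h1]; exact hdet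
  have e : ∀ i, V i * det3 (G s) (T s) (N s) = det3 V (T s) (N s) * G s i
      + det3 (G s) V (N s) * T s i + det3 (G s) (T s) V * N s i := by
    intro i
    fin_cases i <;> simp only [det3, Fin.zero_eta, Fin.mk_one, Fin.reduceFinMk] <;> ring
  funext i
  simp only [ca, cb, ce, ← h1, Pi.add_apply, Pi.smul_apply, smul_eq_mul]
  have := e i
  field_simp
  linear_combination this

theorem coord (s a b e : ℝ) :
    ca G T N (a • G s + b • T s + e • N s) s = a ∧ cb G T N (a • G s + b • T s + e • N s) s = b ∧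
    ce G T N (a • G s + b • T s + e • N s) s = e := by
  have h1 := det_const hG hT hN s
  have h2 : det3 (G s) (T s) (N s) ≠ 0 := by rw [h1]; exact hdet
  simp only [ca, cb, ce, ← h1]
  refine ⟨?_, ?_, ?_⟩ <;> rw [div_eq_iff h2] <;>
    simp only [det3, Pi.add_apply, Pi.smul_apply, smul_eq_mul] <;> ring

omit hdet in
/-- The invariant form. -/
theorem q_const (V : Fin 3 → ℝ) (s : ℝ) :
    ca G T N V s ^ 2 + c * (cb G T N V s ^ 2 + ce G T N V s ^ 2)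
      = ca G T N V 0 ^ 2 + c * (cb G T N V 0 ^ 2 + ce G T N V 0 ^ 2) := by
  have h : ∀ s, HasDerivAt (fun s => ca G T N V s ^ 2
      + c * (cb G T N V s ^ 2 + ce G T N V s ^ 2)) 0 s := fun s => by
    refine HasDerivAt.congr_deriv (((hasDerivAt_ca hT hN V s).fun_pow 2).fun_add
      ((((hasDerivAt_cb hG hN V s).fun_pow 2).fun_add
      ((hasDerivAt_ce hG hT V s).fun_pow 2)).const_mul c)) ?_
    push_cast
    ring
  exact is_const_of_deriv_eq_zero (fun s => (h s).differentiableAt) (fun s => (h s).deriv) s 0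

/-- The differential equation at `0`. -/
theorem local_ode {k1 k2 k3 : ℝ → ℝ}
    (dk : ∀ t, HasDerivAt k (k1 t) t) (dk1 : ∀ t, HasDerivAt k1 (k2 t) t)
    (dk2 : ∀ t, HasDerivAt k2 (k3 t) t) (kpos : 0 < k 0)
    (inv : ∃ κ ε : ℝ, 0 < ε ∧ ∀ τ x y s₁ s₂ l₁ l₂ : ℝ, 0 < τ → τ < ε → 0 < x → x < ε →
      0 < y → y < ε → |s₁| < ε → |s₂| < ε → 0 < l₁ → 0 < l₂ →
      G s₁ + τ • N s₁ = l₁ • (G 0 + x • T 0) → G s₂ + τ • N s₂ = l₂ • (G 0 - y • T 0) →
      1 / x - 1 / y = κ) :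
    9 * k 0 ^ 2 * k3 0 - 30 * k 0 * k1 0 * k2 0 + 20 * k1 0 ^ 3 + 81 * c * k 0 ^ 2 * k1 0
      - 99 * k 0 ^ 4 * k1 0 = 0 := by
  obtain ⟨κ, ε, hε, hinv⟩ := inv
  obtain ⟨g1, g2, g3⟩ := coord hG hT hN hdet 0 1 0 0
  obtain ⟨g4, g5, g6⟩ := coord hG hT hN hdet 0 0 1 0
  simp only [one_smul, zero_smul, add_zero, zero_add] at g1 g2 g3 g4 g5 g6
  have da := hasDerivAt_ca hT hN (G 0) (G := G) (c := c)
  have db := hasDerivAt_cb hG hN (G 0) (T := T)
  have de := hasDerivAt_ce hG hT (G 0) (N := N)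
  have dα := hasDerivAt_ca hT hN (T 0) (G := G) (c := c)
  have dβ := hasDerivAt_cb hG hN (T 0) (T := T)
  have dη := hasDerivAt_ce hG hT (T 0) (N := N)
  -- linearity
  have lin : ∀ x s : ℝ, ca G T N (G 0 + x • T 0) s = ca G T N (G 0) s + x * ca G T N (T 0) s ∧
      cb G T N (G 0 + x • T 0) s = cb G T N (G 0) s + x * cb G T N (T 0) s ∧
      ce G T N (G 0 + x • T 0) s = ce G T N (G 0) s + x * ce G T N (T 0) s := by
    intro x s
    simp only [ca, cb, ce]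
    refine ⟨?_, ?_, ?_⟩ <;> rw [← mul_div_assoc, ← add_div] <;> congr 1 <;>
      simp only [det3, Pi.add_apply, Pi.smul_apply, smul_eq_mul] <;> ring
  -- the neighbourhood
  have hX : ContinuousAt (fun t => -cb G T N (G 0) t / cb G T N (T 0) t) 0 :=
    (db 0).continuousAt.neg.div (dβ 0).continuousAt (by rw [g5]; exact one_ne_zero)
  have hA : ContinuousAt (fun t => ca G T N (G 0) t
      + (-cb G T N (G 0) t / cb G T N (T 0) t) * ca G T N (T 0) t) 0 :=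
    (da 0).continuousAt.add (hX.mul (dα 0).continuousAt)
  have hE : ContinuousAt (fun t => ce G T N (G 0) t
      + (-cb G T N (G 0) t / cb G T N (T 0) t) * ce G T N (T 0) t) 0 :=
    (de 0).continuousAt.add (hX.mul (dη 0).continuousAt)
  have v1 : ∀ᶠ t in 𝓝 (0 : ℝ), cb G T N (T 0) t ≠ 0 :=
    (dβ 0).continuousAt.eventually_ne (by rw [g5]; exact one_ne_zero)
  have v2 : ∀ᶠ t in 𝓝 (0 : ℝ), |-cb G T N (G 0) t / cb G T N (T 0) t| < ε :=
    hX.abs.eventually (eventually_lt_nhds (by simp only [g2]; simpa using hε))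
  have v3 : ∀ᶠ t in 𝓝 (0 : ℝ), 1 / 2 < ca G T N (G 0) t
      + (-cb G T N (G 0) t / cb G T N (T 0) t) * ca G T N (T 0) t :=
    hA.eventually (eventually_gt_nhds (by simp only [g1, g2]; norm_num))
  have v4 : ∀ᶠ t in 𝓝 (0 : ℝ), ce G T N (G 0) t
      + (-cb G T N (G 0) t / cb G T N (T 0) t) * ce G T N (T 0) t < ε / 2 :=
    hE.eventually (eventually_lt_nhds (by simp only [g2, g3]; simpa using hε))
  obtain ⟨ε', hε', hn⟩ := Metric.eventually_nhds_iff.1 ((v1.and v2).and (v3.and v4))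
  refine scalar (c := c) (κ := κ) (ε := min ε ε') da db de dα dβ dη dk dk1 dk2 g1 g2 g3 g4 g5 g6
    kpos (lt_min hε hε') ?_
  intro t₁ t₂ x₁ x₂ a1 a2 b1 b2 c1 c2 d1 d2 e1 e2 hEq
  have n1 := hn (y := t₁) (by rw [Real.dist_eq, sub_zero]; exact a1.trans_le (min_le_right _ _))
  have n2 := hn (y := t₂) (by rw [Real.dist_eq, sub_zero]; exact a2.trans_le (min_le_right _ _))
  have x1 : x₁ = -cb G T N (G 0) t₁ / cb G T N (T 0) t₁ := by
    rw [eq_div_iff n1.1.1]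
    linarith
  have x2 : x₂ = -cb G T N (G 0) t₂ / cb G T N (T 0) t₂ := by
    rw [eq_div_iff n2.1.1]
    linarith
  rw [← x1] at n1
  rw [← x2] at n2
  obtain ⟨⟨-, p1⟩, p2, p3⟩ := n1
  obtain ⟨⟨-, q1⟩, q2, q3⟩ := n2
  obtain ⟨A₁, hA₁⟩ : ∃ A, A = ca G T N (G 0) t₁ + x₁ * ca G T N (T 0) t₁ := ⟨_, rfl⟩
  obtain ⟨A₂, hA₂⟩ : ∃ A, A = ca G T N (G 0) t₂ + x₂ * ca G T N (T 0) t₂ := ⟨_, rfl⟩
  obtain ⟨E₁, hE₁⟩ : ∃ A, A = ce G T N (G 0) t₁ + x₁ * ce G T N (T 0) t₁ := ⟨_, rfl⟩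
  obtain ⟨E₂, hE₂⟩ : ∃ A, A = ce G T N (G 0) t₂ + x₂ * ce G T N (T 0) t₂ := ⟨_, rfl⟩
  rw [← hA₁] at p2
  rw [← hA₂] at q2
  rw [← hE₁] at p3 e1
  rw [← hE₂] at q3 e2
  rw [← hE₁, ← hE₂] at hEq
  -- the vectors
  obtain ⟨l1, l2, l3⟩ := lin x₁ t₁
  obtain ⟨l4, l5, l6⟩ := lin x₂ t₂
  obtain ⟨l1', l2', l3'⟩ := lin x₁ 0
  obtain ⟨l4', l5', l6'⟩ := lin x₂ 0
  have V1 := cramer hG hT hN hdet (G 0 + x₁ • T 0) t₁
  have V2 := cramer hG hT hN hdet (G 0 + x₂ • T 0) t₂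
  have Q1 := q_const hG hT hN (G 0 + x₁ • T 0) t₁
  have Q2 := q_const hG hT hN (G 0 + x₂ • T 0) t₂
  rw [l1, l2, l3, l1', l2', l3', g1, g2, g3, g4, g5, g6, b1, ← hA₁, ← hE₁] at Q1
  rw [l4, l5, l6, l4', l5', l6', g1, g2, g3, g4, g5, g6, b2, ← hA₂, ← hE₂] at Q2
  rw [l1, l2, l3, b1, zero_smul, add_zero, ← hA₁, ← hE₁] at V1
  rw [l4, l5, l6, b2, zero_smul, add_zero, ← hA₂, ← hE₂] at V2
  have P1 : 0 < A₁ := by linarith
  have P2 : 0 < A₂ := by linarith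
  have hsq : (E₁ * A₂) ^ 2 = (E₂ * A₁) ^ 2 := by
    linear_combination hEq + E₁ ^ 2 * Q2 - E₂ ^ 2 * Q1
  have hτ : E₁ * A₂ = E₂ * A₁ :=
    (pow_left_inj₀ (by positivity) (by positivity) two_ne_zero).1 hsq
  have hτ' : E₂ / A₂ = E₁ / A₁ := by
    rw [div_eq_div_iff P2.ne' P1.ne']
    linarith
  have key := hinv (E₁ / A₁) x₁ (-x₂) t₁ t₂ A₁⁻¹ A₂⁻¹ (div_pos e1 P1) (by
      rw [div_lt_iff₀ P1]
      nlinarith) d1 (abs_lt.1 p1).2 (by linarith) (by linarith [(abs_lt.1 q1).1])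
    (a1.trans_le (min_le_left _ _)) (a2.trans_le (min_le_left _ _)) (inv_pos.2 P1) (inv_pos.2 P2)
    (by
      rw [V1, smul_add, smul_smul, smul_smul, inv_mul_cancel₀ P1.ne', one_smul, div_eq_inv_mul])
    (by
      rw [neg_smul, sub_neg_eq_add, V2, smul_add, smul_smul, smul_smul, inv_mul_cancel₀ P2.ne',
        one_smul, ← hτ', div_eq_inv_mul])
  rw [← key]
  rw [div_neg]
  ring

end frame

end Pool.Agent.R462.EQ
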