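import Pool.Agent.R462.PL.Parity

set_option autoImplicit false

open Filter Topology

namespace Pool.Agent.R462.EQ

open Pool.Agent.R462.PL

/-- The relation between the derivatives of a level function `F0` (given together with the
coordinate `X` on the line as a function of a parameter `t`) whose level sets are exchanged by a
projective involution. -/
theorem gen {X X1 F0 F1 F2 F3 F4 F5 : ℝ → ℝ} {κ ε : ℝ}
    (hX : ∀ᶠ t in 𝓝 (0 : ℝ), HasDerivAt X (X1 t) t) (cX1 : ContinuousAt X1 0)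
    (hX1 : 0 < X1 0) (X0 : X 0 = 0)
    (h0 : ∀ᶠ t in 𝓝 (0 : ℝ), HasDerivAt F0 (F1 t * X1 t) t)
    (h1 : ∀ᶠ t in 𝓝 (0 : ℝ), HasDerivAt F1 (F2 t * X1 t) t)
    (h2 : ∀ᶠ t in 𝓝 (0 : ℝ), HasDerivAt F2 (F3 t * X1 t) t)
    (h3 : ∀ᶠ t in 𝓝 (0 : ℝ), HasDerivAt F3 (F4 t * X1 t) t)
    (h4 : ∀ᶠ t in 𝓝 (0 : ℝ), HasDerivAt F4 (F5 t * X1 t) t)
    (z0 : F0 0 = 0) (z1 : F1 0 = 0) (p2 : 0 < F2 0) (hε : 0 < ε)
    (hc : ∀ t₁ t₂ : ℝ, |t₁| < ε → |t₂| < ε → 0 < X t₁ → X t₂ < 0 → 0 < F0 t₁ →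
      F0 t₁ = F0 t₂ → 1 / X t₁ + 1 / X t₂ = κ) :
    9 * F2 0 ^ 2 * F5 0 - 30 * F2 0 * F3 0 * F4 0 + 20 * F3 0 ^ 3 = 0 := by
  -- choose `δ`
  have evX1 : ∀ᶠ t in 𝓝 (0 : ℝ), 0 < X1 t := cX1.eventually (eventually_gt_nhds hX1)
  have evF2 : ∀ᶠ t in 𝓝 (0 : ℝ), 0 < F2 t :=
    h2.self_of_nhds.continuousAt.eventually (eventually_gt_nhds p2)
  obtain ⟨δ₀, hδ₀, hh⟩ := Metric.eventually_nhds_iff.1
    (((hX.and evX1).and (h0.and h1)).and evF2)
  obtain ⟨δ, hδ, hδlt⟩ := exists_between hδ₀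
  have hg : ∀ t : ℝ, |t| ≤ δ → (HasDerivAt X (X1 t) t ∧ 0 < X1 t) ∧
      (HasDerivAt F0 (F1 t * X1 t) t ∧ HasDerivAt F1 (F2 t * X1 t) t) ∧ 0 < F2 t := by
    intro t ht
    have h5 : dist t 0 < δ₀ := by
      rw [Real.dist_eq, sub_zero]
      linarith
    exact ⟨(hh h5).1.1, (hh h5).1.2, (hh h5).2⟩
  have dX : ∀ t, |t| ≤ δ → HasDerivAt X (X1 t) t := fun t ht => (hg t ht).1.1
  have dr : ∀ t, |t| ≤ δ → HasDerivAt F0 (F1 t * X1 t) t := fun t ht => (hg t ht).2.1.1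
  have X1pos : ∀ t, |t| ≤ δ → 0 < X1 t := fun t ht => (hg t ht).1.2
  have ev : ∀ᶠ t in 𝓝 (0 : ℝ), |t| ≤ δ := by
    filter_upwards [Metric.ball_mem_nhds (0 : ℝ) hδ] with t ht
    rw [Metric.mem_ball, Real.dist_eq, sub_zero] at ht
    exact ht.le
  have hst : HasStrictDerivAt X (X1 0) 0 :=
    hasStrictDerivAt_of_hasDerivAt_of_continuousAt (ev.mono fun t ht => dX t ht) cX1
  have hne : X1 0 ≠ 0 := hX1.ne'
  have hst' := hst.hasStrictFDerivAt_equiv hne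
  set f := hst'.toOpenPartialHomeomorph X with hf
  have hfc : ∀ t, f t = X t := fun t => by rw [hf]; rfl
  have h0s : (0 : ℝ) ∈ f.source := hst'.mem_toOpenPartialHomeomorph_source
  have h0t : (0 : ℝ) ∈ f.target := by
    have := f.map_source h0s
    rwa [hfc, X0] at this
  obtain ⟨g, hgd⟩ : ∃ g : ℝ → ℝ, ∀ x, g x = f.symm x := ⟨_, fun _ => rfl⟩
  have hgf : ∀ t ∈ f.source, g (X t) = t := fun t ht => by
    rw [hgd, ← hfc]
    exact f.left_inv ht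
  have hfg : ∀ x ∈ f.target, X (g x) = x := fun x hx => by
    rw [hgd, ← hfc]
    exact f.right_inv hx
  have g0 : g 0 = 0 := by
    have := hgf 0 h0s
    rwa [X0] at this
  have cg : ContinuousAt g 0 := by
    have h1 := f.continuousAt_symm h0t
    have h2 : g = f.symm := funext hgd
    rw [h2]
    exact h1
  have tg : Tendsto g (𝓝 0) (𝓝 0) := by
    have := cg.tendsto
    rwa [g0] at this
  have evT : ∀ᶠ x in 𝓝 (0 : ℝ), x ∈ f.target := f.open_target.mem_nhds h0t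
  have evS : ∀ᶠ t in 𝓝 (0 : ℝ), t ∈ f.source := f.open_source.mem_nhds h0s
  have dg : ∀ᶠ x in 𝓝 (0 : ℝ), HasDerivAt g (X1 (g x))⁻¹ x := by
    filter_upwards [evT, tg.eventually ev] with x hx1 hx2
    have h2 : g = f.symm := funext hgd
    have h3 : HasDerivAt f (X1 (g x)) (f.symm x) := by
      have h4 := dX (g x) hx2
      rw [hgd x] at h4 ⊢
      have h5 : (f : ℝ → ℝ) = X := funext hfc
      rw [h5]
      exact h4
    have h6 := f.hasDerivAt_symm hx1 (X1pos (g x) hx2).ne' h3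
    rw [← h2] at h6
    exact h6
  have comp : ∀ A A' : ℝ → ℝ, (∀ᶠ t in 𝓝 (0 : ℝ), HasDerivAt A (A' t * X1 t) t) →
      ∀ᶠ x in 𝓝 (0 : ℝ), HasDerivAt (fun x => A (g x)) (A' (g x)) x := by
    intro A A' hA
    filter_upwards [tg.eventually hA, dg, tg.eventually ev] with x a1 a2 a3
    refine HasDerivAt.congr_deriv (a1.comp x a2) ?_
    rw [mul_assoc, mul_inv_cancel₀ (X1pos (g x) a3).ne', mul_one]
  have e0 := comp F0 F1 h0
  have e1 := comp F1 F2 h1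
  have e2 := comp F2 F3 h2
  have e3 := comp F3 F4 h3
  have e4 := comp F4 F5 h4
  -- the sign of `F1` and of the derivative of `F0`
  have F1mono : StrictMonoOn F1 (Set.Icc (-δ) δ) := by
    refine strictMonoOn_of_deriv_pos (convex_Icc _ _) ?_ ?_
    · intro t ht
      exact (hg t (abs_le.2 ht)).2.1.2.continuousAt.continuousWithinAt
    · intro t ht
      rw [interior_Icc] at ht
      have h1 : |t| ≤ δ := abs_le.2 ⟨ht.1.le, ht.2.le⟩
      rw [(hg t h1).2.1.2.deriv]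
      exact mul_pos (hg t h1).2.2 (X1pos t h1)
  have rneg : StrictAntiOn F0 (Set.Icc (-δ) 0) := by
    refine strictAntiOn_of_deriv_neg (convex_Icc _ _) ?_ ?_
    · intro t ht
      exact (dr t (abs_le.2 ⟨ht.1, ht.2.trans hδ.le⟩)).continuousAt.continuousWithinAt
    · intro t ht
      rw [interior_Icc] at ht
      have h1 : |t| ≤ δ := abs_le.2 ⟨ht.1.le, ht.2.le.trans hδ.le⟩
      rw [(dr t h1).deriv]
      have h3 : F1 t < 0 := by
        have := F1mono (a := t) (b := 0) (abs_le.1 h1) ⟨by linarith, hδ.le⟩ ht.2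
        rwa [z1] at this
      exact mul_neg_of_neg_of_pos h3 (X1pos t h1)
  have rpos : StrictMonoOn F0 (Set.Icc 0 δ) := by
    refine strictMonoOn_of_deriv_pos (convex_Icc _ _) ?_ ?_
    · intro t ht
      exact (dr t (abs_le.2 ⟨by linarith [ht.1], ht.2⟩)).continuousAt.continuousWithinAt
    · intro t ht
      rw [interior_Icc] at ht
      have h1 : |t| ≤ δ := abs_le.2 ⟨by linarith [ht.1], ht.2.le⟩
      rw [(dr t h1).deriv]
      have h3 : 0 < F1 t := by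
        have := F1mono (a := 0) (b := t) ⟨by linarith, hδ.le⟩ (abs_le.1 h1) ht.1
        rwa [z1] at this
      exact mul_pos h3 (X1pos t h1)
  have Xmono : StrictMonoOn X (Set.Icc (-δ) δ) := by
    refine strictMonoOn_of_deriv_pos (convex_Icc _ _) ?_ ?_
    · intro t ht
      exact (dX t (abs_le.2 ht)).continuousAt.continuousWithinAt
    · intro t ht
      rw [interior_Icc] at ht
      have h1 : |t| ≤ δ := abs_le.2 ⟨ht.1.le, ht.2.le⟩
      rw [(dX t h1).deriv]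
      exact X1pos t h1
  -- choose a small `η`
  have cr : ContinuousAt F0 0 := (dr 0 (by simpa using hδ.le)).continuousAt
  obtain ⟨η, hη, hη'⟩ := Metric.eventually_nhds_iff.1 (evS.and ev)
  obtain ⟨η₁, hη₁, hη₁a, hη₁b⟩ : ∃ η₁ : ℝ, 0 < η₁ ∧ η₁ < η ∧ η₁ < ε :=
    ⟨min η ε / 2, by positivity, by
      have := min_le_left η ε
      have : 0 < min η ε := lt_min hη hε
      linarith, by
      have := min_le_right η ε
      have : 0 < min η ε := lt_min hη hε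
      linarith⟩
  have near : ∀ t : ℝ, |t| ≤ η₁ → t ∈ f.source ∧ |t| ≤ δ := by
    intro t ht
    have h1 : dist t 0 < η := by
      rw [Real.dist_eq, sub_zero]
      linarith
    exact ⟨(hη' h1).1, (hη' h1).2⟩
  have hηδ : η₁ ≤ δ := by
    have := (near η₁ (by rw [abs_of_pos hη₁])).2
    rwa [abs_of_pos hη₁] at this
  have rη : 0 < F0 (-η₁) := by
    have := rneg (a := -η₁) (b := 0) ⟨by linarith, by linarith⟩ ⟨by linarith, le_rfl⟩ (by linarith)
    rwa [z0] at this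
  -- invariance for positive `x`
  have evx : ∀ᶠ x in 𝓝 (0 : ℝ), F0 (g x) < F0 (-η₁) := by
    have h1 : ContinuousAt (fun x => F0 (g x)) 0 := by
      refine ContinuousAt.comp (f := g) (g := F0) ?_ cg
      rw [g0]
      exact cr
    exact h1.eventually (eventually_lt_nhds (by simp only [g0, z0]; exact rη))
  have evg : ∀ᶠ x in 𝓝 (0 : ℝ), |g x| ≤ η₁ := by
    filter_upwards [tg.eventually (Metric.ball_mem_nhds (0 : ℝ) hη₁)] with x hx
    have hx' : dist (g x) 0 < η₁ := hx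
    rw [Real.dist_eq, sub_zero] at hx'
    exact hx'.le
  have pos : ∀ᶠ x in 𝓝 (0 : ℝ), 0 < x → F0 (g x) = F0 (g (-(x / (1 - κ * x)))) := by
    filter_upwards [evx, evg, evT] with x a1 a2 a3 hx
    obtain ⟨b3, b4⟩ := near (g x) a2
    have hXg := hfg x a3
    have gpos : 0 < g x := by
      by_contra hcon
      push Not at hcon
      have h1 := Xmono.monotoneOn (a := g x) (b := 0) (abs_le.1 b4) ⟨by linarith, hδ.le⟩ hcon
      rw [hXg, X0] at h1
      linarith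
    have rg : 0 < F0 (g x) := by
      have := rpos (a := 0) (b := g x) ⟨le_rfl, hδ.le⟩ ⟨gpos.le, (abs_le.1 b4).2⟩ gpos
      rwa [z0] at this
    have hcont : ContinuousOn F0 (Set.Icc (-η₁) 0) := fun t ht =>
      (dr t (abs_le.2 ⟨by linarith [ht.1], by linarith [ht.2]⟩)).continuousAt.continuousWithinAt
    have hiv := intermediate_value_Icc' (by linarith : -η₁ ≤ 0) hcont
    obtain ⟨t₂, ht₂, hrt₂⟩ := hiv (by rw [z0]; exact ⟨rg.le, a1.le⟩)
    have t₂neg : t₂ < 0 := by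
      rcases lt_or_eq_of_le ht₂.2 with h1 | h1
      · exact h1
      · rw [h1, z0] at hrt₂
        linarith
    have ht₂' : |t₂| ≤ η₁ := abs_le.2 ⟨ht₂.1, by linarith⟩
    obtain ⟨c3, c4⟩ := near t₂ ht₂'
    have hy : X t₂ < 0 := by
      have := Xmono (a := t₂) (b := 0) (abs_le.1 c4) ⟨by linarith, hδ.le⟩ t₂neg
      rwa [X0] at this
    have key := hc (g x) t₂ (by linarith) (by linarith) (by rw [hXg]; exact hx) hy rg hrt₂.symm
    rw [hXg] at key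
    have hx' := hx.ne'
    have hy' : X t₂ ≠ 0 := hy.ne
    have e5 : X t₂ = -(x / (1 - κ * x)) := by
      have h1 : 1 - κ * x ≠ 0 := by
        intro h2
        rw [← key] at h2
        field_simp at h2
        have : x = 0 ∨ X t₂ = 0 := by
          right
          nlinarith
        rcases this with h3 | h3
        · exact hx' h3
        · exact hy' h3
      rw [← key]
      have h2 : 1 - (1 / x + 1 / X t₂) * x = -(x / X t₂) := by
        field_simp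
        ring
      rw [h2]
      field_simp
    rw [← e5, hgf t₂ c3, hrt₂]
  -- all `x`
  have hone : ∀ᶠ x in 𝓝 (0 : ℝ), 0 < 1 - κ * x := by
    have : ContinuousAt (fun x : ℝ => 1 - κ * x) 0 := by fun_prop
    exact this.eventually (eventually_gt_nhds (by simp))
  have tmap : Tendsto (fun x : ℝ => -(x / (1 - κ * x))) (𝓝 0) (𝓝 0) := by
    have h1 : ContinuousAt (fun x : ℝ => -(x / (1 - κ * x))) 0 := by
      apply ContinuousAt.neg
      exact ContinuousAt.div (by fun_prop) (by fun_prop) (by simp)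
    simpa using h1.tendsto
  have all : ∀ᶠ x in 𝓝 (0 : ℝ), F0 (g x) = F0 (g (-(x / (1 - κ * x)))) := by
    filter_upwards [pos, tmap.eventually pos, hone] with x a1 a2 a3
    rcases lt_trichotomy x 0 with hx | hx | hx
    · have h1 : 0 < -(x / (1 - κ * x)) := by
        have := div_neg_of_neg_of_pos hx a3
        linarith
      have h2 := a2 h1
      have h3 : -(-(x / (1 - κ * x)) / (1 - κ * -(x / (1 - κ * x)))) = x := by
        have h4 := a3.ne'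
        have h5 : 1 - κ * -(x / (1 - κ * x)) = 1 / (1 - κ * x) := by
          field_simp
          ring
        rw [h5, div_div_eq_mul_div, div_one, neg_mul, neg_neg, div_mul_cancel₀ _ h4]
      rw [h3] at h2
      exact h2.symm
    · subst hx
      simp
    · exact a1 hx
  have hF1 : F1 (g 0) = 0 := by
    rw [g0]
    exact z1
  have := parity e0 e1 e2 e3 e4 all hF1
  simp only [g0] at this
  exact this

/-- The same for `E0 / √(1 + c X ^ 2)` as level function. -/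
theorem genW {c : ℝ} {X X1 E0 E1 E2 E3 E4 E5 : ℝ → ℝ} {κ ε : ℝ}
    (hX : ∀ᶠ t in 𝓝 (0 : ℝ), HasDerivAt X (X1 t) t) (cX1 : ContinuousAt X1 0)
    (hX1 : 0 < X1 0) (X0 : X 0 = 0)
    (h0 : ∀ᶠ t in 𝓝 (0 : ℝ), HasDerivAt E0 (E1 t * X1 t) t)
    (h1 : ∀ᶠ t in 𝓝 (0 : ℝ), HasDerivAt E1 (E2 t * X1 t) t)
    (h2 : ∀ᶠ t in 𝓝 (0 : ℝ), HasDerivAt E2 (E3 t * X1 t) t)
    (h3 : ∀ᶠ t in 𝓝 (0 : ℝ), HasDerivAt E3 (E4 t * X1 t) t)
    (h4 : ∀ᶠ t in 𝓝 (0 : ℝ), HasDerivAt E4 (E5 t * X1 t) t)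
    (z0 : E0 0 = 0) (z1 : E1 0 = 0) (p2 : 0 < E2 0) (hε : 0 < ε)
    (hc : ∀ t₁ t₂ : ℝ, |t₁| < ε → |t₂| < ε → 0 < 1 + c * X t₁ ^ 2 → 0 < 1 + c * X t₂ ^ 2 →
      0 < X t₁ → X t₂ < 0 → 0 < E0 t₁ → 0 < E0 t₂ →
      E0 t₁ ^ 2 * (1 + c * X t₂ ^ 2) = E0 t₂ ^ 2 * (1 + c * X t₁ ^ 2) →
      1 / X t₁ + 1 / X t₂ = κ) :
    9 * E2 0 ^ 2 * E5 0 - 30 * E2 0 * E3 0 * E4 0 + 20 * E3 0 ^ 3
      + 90 * c * E2 0 ^ 2 * E3 0 = 0 := by
  have cX : ContinuousAt X 0 := hX.self_of_nhds.continuousAt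
  have evW : ∀ᶠ t in 𝓝 (0 : ℝ), 0 < 1 + c * X t ^ 2 := by
    have : ContinuousAt (fun t => 1 + c * X t ^ 2) 0 := by fun_prop
    exact this.eventually (eventually_gt_nhds (by simp [X0]))
  obtain ⟨ε', hε', hW⟩ := Metric.eventually_nhds_iff.1 evW
  obtain ⟨w, hw⟩ : ∃ w : ℝ → ℝ, ∀ t, w t = (√(1 + c * X t ^ 2))⁻¹ := ⟨_, fun _ => rfl⟩
  have w0 : w 0 = 1 := by simp [hw, X0]
  have dw : ∀ᶠ t in 𝓝 (0 : ℝ), HasDerivAt w (-(c * X t * w t ^ 3) * X1 t) t := by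
    filter_upwards [hX, evW] with t a b
    have e1 : HasDerivAt (fun t => 1 + c * X t ^ 2) (c * (2 * X t * X1 t)) t := by
      refine HasDerivAt.congr_deriv (((a.fun_pow 2).const_mul c).const_add 1) ?_
      push_cast
      ring
    have e2 := (e1.sqrt b.ne').fun_inv (Real.sqrt_pos.2 b).ne'
    have e3 : w = fun t => (√(1 + c * X t ^ 2))⁻¹ := funext hw
    rw [e3]
    refine HasDerivAt.congr_deriv e2 ?_
    have hs := (Real.sqrt_pos.2 b).ne'
    field_simp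
  have P : ∀ (n m : ℕ) {A A' : ℝ → ℝ}, (∀ᶠ t in 𝓝 (0 : ℝ), HasDerivAt A (A' t * X1 t) t) →
      ∀ᶠ t in 𝓝 (0 : ℝ), HasDerivAt (fun t => A t * (X t ^ n * w t ^ m))
        ((A' t * (X t ^ n * w t ^ m) + A t * (n * X t ^ (n - 1) * w t ^ m
          + X t ^ n * (m * w t ^ (m - 1) * -(c * X t * w t ^ 3)))) * X1 t) t := by
    intro n m A A' hA
    filter_upwards [hA, hX, dw] with t a b d
    refine HasDerivAt.congr_deriv (a.fun_mul ((b.fun_pow n).fun_mul (d.fun_pow m))) ?_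
    ring
  have m0 := P 0 1 h0
  have q0 := P 0 1 h1
  have q1 := P 1 3 h0
  have r0 := P 0 1 h2
  have r1 := P 1 3 h1
  have r2 := P 0 3 h0
  have r3 := P 2 5 h0
  have s0 := P 0 1 h3
  have s1 := P 1 3 h2
  have s2 := P 0 3 h1
  have s3 := P 2 5 h1
  have s4 := P 1 5 h0
  have s5 := P 3 7 h0
  have t0 := P 0 1 h4
  have t1 := P 1 3 h3
  have t2 := P 0 3 h2
  have t3 := P 2 5 h2
  have t4 := P 1 5 h1
  have t5 := P 3 7 h1
  have t6 := P 0 5 h0
  have t7 := P 2 7 h0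
  have t8 := P 4 9 h0
  -- the chain
  have k0 : ∀ᶠ t in 𝓝 (0 : ℝ), HasDerivAt (fun t => E0 t * (X t ^ 0 * w t ^ 1))
      ((E1 t * (X t ^ 0 * w t ^ 1) - c * (E0 t * (X t ^ 1 * w t ^ 3))) * X1 t) t := by
    filter_upwards [m0] with t a
    refine HasDerivAt.congr_deriv a ?_
    simp only [Nat.reduceSub, Nat.cast_ofNat, Nat.cast_zero, Nat.cast_one, zero_tsub]
    ring
  have k1 : ∀ᶠ t in 𝓝 (0 : ℝ), HasDerivAt
      (fun t => E1 t * (X t ^ 0 * w t ^ 1) - c * (E0 t * (X t ^ 1 * w t ^ 3)))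
      ((E2 t * (X t ^ 0 * w t ^ 1) - 2 * c * (E1 t * (X t ^ 1 * w t ^ 3))
        - c * (E0 t * (X t ^ 0 * w t ^ 3)) + 3 * c ^ 2 * (E0 t * (X t ^ 2 * w t ^ 5)))
        * X1 t) t := by
    filter_upwards [q0, q1] with t a b
    refine HasDerivAt.congr_deriv (a.fun_sub (b.const_mul c)) ?_
    simp only [Nat.reduceSub, Nat.cast_ofNat, Nat.cast_zero, Nat.cast_one, zero_tsub]
    ring
  have k2 : ∀ᶠ t in 𝓝 (0 : ℝ), HasDerivAt
      (fun t => E2 t * (X t ^ 0 * w t ^ 1) - 2 * c * (E1 t * (X t ^ 1 * w t ^ 3))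
        - c * (E0 t * (X t ^ 0 * w t ^ 3)) + 3 * c ^ 2 * (E0 t * (X t ^ 2 * w t ^ 5)))
      ((E3 t * (X t ^ 0 * w t ^ 1) - 3 * c * (E2 t * (X t ^ 1 * w t ^ 3))
        - 3 * c * (E1 t * (X t ^ 0 * w t ^ 3)) + 9 * c ^ 2 * (E1 t * (X t ^ 2 * w t ^ 5))
        + 9 * c ^ 2 * (E0 t * (X t ^ 1 * w t ^ 5))
        - 15 * c ^ 3 * (E0 t * (X t ^ 3 * w t ^ 7))) * X1 t) t := by
    filter_upwards [r0, r1, r2, r3] with t a b d e
    refine HasDerivAt.congr_deriv (((a.fun_sub (b.const_mul (2 * c))).fun_sub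
      (d.const_mul c)).fun_add (e.const_mul (3 * c ^ 2))) ?_
    simp only [Nat.reduceSub, Nat.cast_ofNat, Nat.cast_zero, Nat.cast_one, zero_tsub]
    ring
  have k3 : ∀ᶠ t in 𝓝 (0 : ℝ), HasDerivAt
      (fun t => E3 t * (X t ^ 0 * w t ^ 1) - 3 * c * (E2 t * (X t ^ 1 * w t ^ 3))
        - 3 * c * (E1 t * (X t ^ 0 * w t ^ 3)) + 9 * c ^ 2 * (E1 t * (X t ^ 2 * w t ^ 5))
        + 9 * c ^ 2 * (E0 t * (X t ^ 1 * w t ^ 5))
        - 15 * c ^ 3 * (E0 t * (X t ^ 3 * w t ^ 7)))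
      ((E4 t * (X t ^ 0 * w t ^ 1) - 4 * c * (E3 t * (X t ^ 1 * w t ^ 3))
        - 6 * c * (E2 t * (X t ^ 0 * w t ^ 3)) + 18 * c ^ 2 * (E2 t * (X t ^ 2 * w t ^ 5))
        + 36 * c ^ 2 * (E1 t * (X t ^ 1 * w t ^ 5)) - 60 * c ^ 3 * (E1 t * (X t ^ 3 * w t ^ 7))
        + 9 * c ^ 2 * (E0 t * (X t ^ 0 * w t ^ 5)) - 90 * c ^ 3 * (E0 t * (X t ^ 2 * w t ^ 7))
        + 105 * c ^ 4 * (E0 t * (X t ^ 4 * w t ^ 9))) * X1 t) t := by
    filter_upwards [s0, s1, s2, s3, s4, s5] with t a b d e f g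
    refine HasDerivAt.congr_deriv (((((a.fun_sub (b.const_mul (3 * c))).fun_sub
      (d.const_mul (3 * c))).fun_add (e.const_mul (9 * c ^ 2))).fun_add
      (f.const_mul (9 * c ^ 2))).fun_sub (g.const_mul (15 * c ^ 3))) ?_
    simp only [Nat.reduceSub, Nat.cast_ofNat, Nat.cast_zero, Nat.cast_one, zero_tsub]
    ring
  have k4 : ∀ᶠ t in 𝓝 (0 : ℝ), HasDerivAt
      (fun t => E4 t * (X t ^ 0 * w t ^ 1) - 4 * c * (E3 t * (X t ^ 1 * w t ^ 3))
        - 6 * c * (E2 t * (X t ^ 0 * w t ^ 3)) + 18 * c ^ 2 * (E2 t * (X t ^ 2 * w t ^ 5))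
        + 36 * c ^ 2 * (E1 t * (X t ^ 1 * w t ^ 5)) - 60 * c ^ 3 * (E1 t * (X t ^ 3 * w t ^ 7))
        + 9 * c ^ 2 * (E0 t * (X t ^ 0 * w t ^ 5)) - 90 * c ^ 3 * (E0 t * (X t ^ 2 * w t ^ 7))
        + 105 * c ^ 4 * (E0 t * (X t ^ 4 * w t ^ 9)))
      ((E5 t * w t - 5 * c * (E4 t * (X t * w t ^ 3)) - 10 * c * (E3 t * w t ^ 3)
        + 30 * c ^ 2 * (E3 t * (X t ^ 2 * w t ^ 5)) + 90 * c ^ 2 * (E2 t * (X t * w t ^ 5))
        - 150 * c ^ 3 * (E2 t * (X t ^ 3 * w t ^ 7)) + 45 * c ^ 2 * (E1 t * w t ^ 5)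
        - 450 * c ^ 3 * (E1 t * (X t ^ 2 * w t ^ 7)) + 525 * c ^ 4 * (E1 t * (X t ^ 4 * w t ^ 9))
        - 225 * c ^ 3 * (E0 t * (X t * w t ^ 7)) + 1050 * c ^ 4 * (E0 t * (X t ^ 3 * w t ^ 9))
        - 945 * c ^ 5 * (E0 t * (X t ^ 5 * w t ^ 11))) * X1 t) t := by
    filter_upwards [t0, t1, t2, t3, t4, t5, t6, t7, t8] with t a b d e f g h i j
    refine HasDerivAt.congr_deriv ((((((((a.fun_sub (b.const_mul (4 * c))).fun_sub
      (d.const_mul (6 * c))).fun_add (e.const_mul (18 * c ^ 2))).fun_add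
      (f.const_mul (36 * c ^ 2))).fun_sub (g.const_mul (60 * c ^ 3))).fun_add
      (h.const_mul (9 * c ^ 2))).fun_sub (i.const_mul (90 * c ^ 3))).fun_add
      (j.const_mul (105 * c ^ 4))) ?_
    simp only [Nat.reduceSub, Nat.cast_ofNat, Nat.cast_zero, Nat.cast_one, zero_tsub]
    ring
  have key := gen hX cX1 hX1 X0 k0 k1 k2 k3 k4 (by simp [z0]) (by simp [z0, z1])
    (by simp [z0, z1, w0, p2]) (ε := min ε ε') (κ := κ) (lt_min hε hε') (by
      intro t₁ t₂ a1 a2 a3 a4 a5 a6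
      have b1 : 0 < 1 + c * X t₁ ^ 2 := hW (by
        rw [Real.dist_eq, sub_zero]
        exact a1.trans_le (min_le_right _ _))
      have b2 : 0 < 1 + c * X t₂ ^ 2 := hW (by
        rw [Real.dist_eq, sub_zero]
        exact a2.trans_le (min_le_right _ _))
      have c1 : 0 < w t₁ := by rw [hw]; exact inv_pos.2 (Real.sqrt_pos.2 b1)
      have c2 : 0 < w t₂ := by rw [hw]; exact inv_pos.2 (Real.sqrt_pos.2 b2)
      have d1 : w t₁ ^ 2 * (1 + c * X t₁ ^ 2) = 1 := by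
        rw [hw, inv_pow, Real.sq_sqrt b1.le]
        exact inv_mul_cancel₀ b1.ne'
      have d2 : w t₂ ^ 2 * (1 + c * X t₂ ^ 2) = 1 := by
        rw [hw, inv_pow, Real.sq_sqrt b2.le]
        exact inv_mul_cancel₀ b2.ne'
      simp only [pow_zero, pow_one, one_mul] at a5 a6
      have p1 : 0 < E0 t₁ := (pos_iff_pos_of_mul_pos a5).2 c1
      have p2 : 0 < E0 t₂ := by
        rw [a6] at a5
        exact (pos_iff_pos_of_mul_pos a5).2 c2
      refine hc t₁ t₂ (a1.trans_le (min_le_left _ _)) (a2.trans_le (min_le_left _ _)) b1 b2 a3 a4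
        p1 p2 ?_
      have e1 : (E0 t₁ * w t₁) ^ 2 = (E0 t₂ * w t₂) ^ 2 := by rw [a6]
      linear_combination (1 + c * X t₁ ^ 2) * (1 + c * X t₂ ^ 2) * e1
        - E0 t₁ ^ 2 * (1 + c * X t₂ ^ 2) * d1 + E0 t₂ ^ 2 * (1 + c * X t₁ ^ 2) * d2)
  simp only [X0, w0, z0, z1, pow_zero, pow_one, mul_one, one_pow, mul_zero,
    sub_zero, add_zero, ne_eq, OfNat.ofNat_ne_zero, not_false_eq_true, zero_pow] at key
  linear_combination key

end Pool.Agent.R462.EQ
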