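import Pool.Agent.R462.EQ.Frame
import Pool.Agent.R462.PL.Final

set_option autoImplicit false

open Filter Topology

namespace Pool.Agent.R462.EQ

open Pool.Agent.R462.PL

/-- Periodic solutions of the differential equation of the curvature are constant. -/
theorem k_const {c L : ℝ} (hL : 0 < L) {k k1 k2 k3 : ℝ → ℝ}
    (dk : ∀ t, HasDerivAt k (k1 t) t) (dk1 : ∀ t, HasDerivAt k1 (k2 t) t)
    (dk2 : ∀ t, HasDerivAt k2 (k3 t) t) (per : Function.Periodic k L)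
    (kpos : ∀ s, 0 < k s) (hk : ∀ s, 9 * c < 11 * k s ^ 2)
    (ode : ∀ s, 9 * k s ^ 2 * k3 s - 30 * k s * k1 s * k2 s + 20 * k1 s ^ 3
      + 81 * c * k s ^ 2 * k1 s - 99 * k s ^ 4 * k1 s = 0) (s : ℝ) : k s = k 0 := by
  obtain ⟨u, hu⟩ : ∃ u : ℝ → ℝ, ∀ s, u s = k s ^ (1 / 3 : ℝ) := ⟨_, fun _ => rfl⟩
  have upos : ∀ s, 0 < u s := fun s => by rw [hu]; exact Real.rpow_pos_of_pos (kpos s) _
  have u3 : ∀ s, k s = u s ^ 3 := fun s => by
    rw [hu, ← Real.rpow_natCast, ← Real.rpow_mul (kpos s).le]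
    norm_num
  have du : ∀ s, HasDerivAt u (k1 s / (3 * u s ^ 2)) s := fun s => by
    have h : HasDerivAt u (k1 s * (1 / 3) * k s ^ ((1 / 3 : ℝ) - 1)) s := by
      rw [show u = fun s => k s ^ (1 / 3 : ℝ) from funext hu]
      exact (dk s).rpow_const (p := 1 / 3) (Or.inl (kpos s).ne')
    refine HasDerivAt.congr_deriv h ?_
    rw [Real.rpow_sub_one (kpos s).ne', ← hu]
    have h1 := (upos s).ne'
    rw [u3 s]
    field_simp
  obtain ⟨Φ, hΦ⟩ : ∃ Φ : ℝ → ℝ, ∀ s, Φ s = -(k2 s / u s ^ 2) + 4 / 3 * (k1 s ^ 2 / u s ^ 5)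
      + 33 / 7 * u s ^ 7 - 27 * c * u s := ⟨_, fun _ => rfl⟩
  have dΦ : ∀ s, HasDerivAt Φ 0 s := fun s => by
    have h1 := (upos s).ne'
    rw [show Φ = fun s => -(k2 s / u s ^ 2) + 4 / 3 * (k1 s ^ 2 / u s ^ 5)
      + 33 / 7 * u s ^ 7 - 27 * c * u s from funext hΦ]
    refine HasDerivAt.congr_deriv (((((dk2 s).fun_div ((du s).fun_pow 2)
      (pow_ne_zero 2 h1)).fun_neg).fun_add ((((dk1 s).fun_pow 2).fun_div ((du s).fun_pow 5)
      (pow_ne_zero 5 h1)).const_mul (4 / 3))).fun_add (((du s).fun_pow 7).const_mul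
      (33 / 7)) |>.fun_sub ((du s).const_mul (27 * c))) ?_
    have h2 := ode s
    rw [u3 s] at h2
    push_cast
    have h3 : -((k3 s * u s ^ 2 - k2 s * (2 * u s ^ (2 - 1) * (k1 s / (3 * u s ^ 2)))) / (u s ^ 2) ^ 2)
        + 4 / 3 * ((2 * k1 s ^ (2 - 1) * k2 s * u s ^ 5
          - k1 s ^ 2 * (5 * u s ^ (5 - 1) * (k1 s / (3 * u s ^ 2)))) / (u s ^ 5) ^ 2)
        + 33 / 7 * (7 * u s ^ (7 - 1) * (k1 s / (3 * u s ^ 2))) - 27 * c * (k1 s / (3 * u s ^ 2))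
        = -(9 * (u s ^ 3) ^ 2 * k3 s - 30 * u s ^ 3 * k1 s * k2 s + 20 * k1 s ^ 3
          + 81 * c * (u s ^ 3) ^ 2 * k1 s - 99 * (u s ^ 3) ^ 4 * k1 s) / (9 * u s ^ 8) := by
      simp only [Nat.reduceSub]
      field_simp
      ring
    rw [h3, h2]
    simp
  have cΦ : ∀ s t, Φ s = Φ t := fun s t =>
    is_const_of_deriv_eq_zero (fun s => (dΦ s).differentiableAt) (fun s => (dΦ s).deriv) s t
  obtain ⟨M, hM, hM1, hM2⟩ := exists_max hL per dk dk1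
  obtain ⟨m, hm, hm1, hm2⟩ := exists_max (W := fun s => -k s) (W1 := fun s => -k1 s)
    (W2 := fun s => -k2 s) hL (fun s => by simp only [per s]) (fun s => (dk s).fun_neg)
    (fun s => (dk1 s).fun_neg)
  simp only [neg_eq_zero] at hm1
  have e := cΦ M m
  rw [hΦ, hΦ, hM1, hm1] at e
  have e1 : k2 M / u M ^ 2 ≤ 0 := div_nonpos_of_nonpos_of_nonneg hM2 (by positivity)
  have e2 : 0 ≤ k2 m / u m ^ 2 := div_nonneg (by linarith) (by positivity)
  have e3 : 33 / 7 * u M ^ 7 - 27 * c * u M ≤ 33 / 7 * u m ^ 7 - 27 * c * u m := by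
    simp only [ne_eq, OfNat.ofNat_ne_zero, not_false_eq_true, zero_pow, zero_div, mul_zero,
      add_zero] at e
    linarith
  have e4 : u m ≤ u M := by
    rw [hu, hu]
    exact Real.rpow_le_rpow (kpos m).le (hM m) (by norm_num)
  have e5 : u M ≤ u m := by
    by_contra hcon
    push Not at hcon
    have h1 := hk m
    rw [u3 m] at h1
    have h2 : 7 * u m ^ 6 * (u M - u m) ≤ u M ^ 7 - u m ^ 7 := by
      have hm0 := (upos m).le
      have q1 : u m ^ 6 ≤ u M ^ 6 := pow_le_pow_left₀ hm0 e4 6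
      have q2 : u m ^ 5 ≤ u M ^ 5 := pow_le_pow_left₀ hm0 e4 5
      have q3 : u m ^ 4 ≤ u M ^ 4 := pow_le_pow_left₀ hm0 e4 4
      have q4 : u m ^ 3 ≤ u M ^ 3 := pow_le_pow_left₀ hm0 e4 3
      have q5 : u m ^ 2 ≤ u M ^ 2 := pow_le_pow_left₀ hm0 e4 2
      have r2 : u m ^ 6 ≤ u M ^ 5 * u m := by nlinarith
      have r3 : u m ^ 6 ≤ u M ^ 4 * u m ^ 2 := by nlinarith [pow_pos (upos m) 2]
      have r4 : u m ^ 6 ≤ u M ^ 3 * u m ^ 3 := by nlinarith [pow_pos (upos m) 3]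
      have r5 : u m ^ 6 ≤ u M ^ 2 * u m ^ 4 := by nlinarith [pow_pos (upos m) 4]
      have r6 : u m ^ 6 ≤ u M * u m ^ 5 := by nlinarith [pow_pos (upos m) 5]
      have f1 : u M ^ 7 - u m ^ 7 = (u M - u m) * (u M ^ 6 + u M ^ 5 * u m + u M ^ 4 * u m ^ 2
        + u M ^ 3 * u m ^ 3 + u M ^ 2 * u m ^ 4 + u M * u m ^ 5 + u m ^ 6) := by ring
      rw [f1]
      have f2 : 0 < u M - u m := by linarith
      have f3 : 7 * u m ^ 6 ≤ u M ^ 6 + u M ^ 5 * u m + u M ^ 4 * u m ^ 2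
        + u M ^ 3 * u m ^ 3 + u M ^ 2 * u m ^ 4 + u M * u m ^ 5 + u m ^ 6 := by linarith
      nlinarith
    have h3 : 0 < (u M - u m) * (11 * (u m ^ 3) ^ 2 - 9 * c) :=
      mul_pos (by linarith) (by linarith)
    nlinarith
  have e6 : u M = u m := le_antisymm e5 e4
  have hc : ∀ s, k s = k M := fun s => by
    have h1 := hM s
    have h2 : k m ≤ k s := by
      have := hm s
      linarith
    have h3 : k m = k M := by rw [u3, u3, e6]
    linarith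
  rw [hc s, hc 0]

end Pool.Agent.R462.EQ
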