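import Pool.Agent.R462.EQ.Gen

set_option autoImplicit false

open Filter Topology

namespace Pool.Agent.R462.EQ

/-- The differential equation of the curvature at one point, from the moving frame equations for
the coordinates of two fixed vectors. -/
theorem scalar {c κ ε : ℝ} {a0 b0 e0 α β η k k1 k2 k3 : ℝ → ℝ}
    (da : ∀ t, HasDerivAt a0 (c * b0 t) t) (db : ∀ t, HasDerivAt b0 (-a0 t - k t * e0 t) t)
    (de : ∀ t, HasDerivAt e0 (k t * b0 t) t)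
    (dα : ∀ t, HasDerivAt α (c * β t) t) (dβ : ∀ t, HasDerivAt β (-α t - k t * η t) t)
    (dη : ∀ t, HasDerivAt η (k t * β t) t)
    (dk : ∀ t, HasDerivAt k (k1 t) t) (dk1 : ∀ t, HasDerivAt k1 (k2 t) t)
    (dk2 : ∀ t, HasDerivAt k2 (k3 t) t)
    (ia : a0 0 = 1) (ib : b0 0 = 0) (ie : e0 0 = 0) (iα : α 0 = 0) (iβ : β 0 = 1) (iη : η 0 = 0)
    (kpos : 0 < k 0) (hε : 0 < ε)
    (hc : ∀ t₁ t₂ x₁ x₂ : ℝ, |t₁| < ε → |t₂| < ε → b0 t₁ + x₁ * β t₁ = 0 → b0 t₂ + x₂ * β t₂ = 0 →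
      0 < 1 + c * x₁ ^ 2 → 0 < 1 + c * x₂ ^ 2 →
      0 < x₁ → x₂ < 0 → 0 < e0 t₁ + x₁ * η t₁ → 0 < e0 t₂ + x₂ * η t₂ →
      (e0 t₁ + x₁ * η t₁) ^ 2 * (1 + c * x₂ ^ 2) = (e0 t₂ + x₂ * η t₂) ^ 2 * (1 + c * x₁ ^ 2) →
      1 / x₁ + 1 / x₂ = κ) :
    9 * k 0 ^ 2 * k3 0 - 30 * k 0 * k1 0 * k2 0 + 20 * k1 0 ^ 3 + 81 * c * k 0 ^ 2 * k1 0
      - 99 * k 0 ^ 4 * k1 0 = 0 := by
  -- auxiliary functions
  obtain ⟨u, hu⟩ : ∃ u : ℝ → ℝ, ∀ t, u t = α t + k t * η t := ⟨_, fun _ => rfl⟩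
  obtain ⟨v, hv⟩ : ∃ v : ℝ → ℝ, ∀ t, v t = c * β t + k1 t * η t + k t ^ 2 * β t :=
    ⟨_, fun _ => rfl⟩
  obtain ⟨m1, hm1⟩ : ∃ u : ℝ → ℝ, ∀ t, u t = a0 t * β t - b0 t * α t := ⟨_, fun _ => rfl⟩
  obtain ⟨m2, hm2⟩ : ∃ u : ℝ → ℝ, ∀ t, u t = a0 t * η t - e0 t * α t := ⟨_, fun _ => rfl⟩
  obtain ⟨m3, hm3⟩ : ∃ u : ℝ → ℝ, ∀ t, u t = b0 t * η t - e0 t * β t := ⟨_, fun _ => rfl⟩
  obtain ⟨D, hD⟩ : ∃ u : ℝ → ℝ, ∀ t, u t = m1 t - k t * m3 t := ⟨_, fun _ => rfl⟩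
  have dβ' : ∀ t, HasDerivAt β (-u t) t := fun t => by
    refine HasDerivAt.congr_deriv (dβ t) ?_
    rw [hu]; ring
  have du : ∀ t, HasDerivAt u (v t) t := fun t => by
    rw [show u = fun t => α t + k t * η t from funext hu]
    refine HasDerivAt.congr_deriv ((dα t).fun_add ((dk t).fun_mul (dη t))) ?_
    rw [hv]; ring
  have dv : ∀ t, HasDerivAt v (-c * u t + k2 t * η t + 3 * k t * k1 t * β t
      - k t ^ 2 * u t) t := fun t => by
    rw [show v = fun t => c * β t + k1 t * η t + k t ^ 2 * β t from funext hv]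
    refine HasDerivAt.congr_deriv ((((dβ' t).const_mul c).fun_add ((dk1 t).fun_mul (dη t))).fun_add
      (((dk t).fun_pow 2).fun_mul (dβ' t))) ?_
    push_cast
    ring
  have dm1 : ∀ t, HasDerivAt m1 (-k t * m2 t) t := fun t => by
    rw [show m1 = fun t => a0 t * β t - b0 t * α t from funext hm1]
    refine HasDerivAt.congr_deriv (((da t).fun_mul (dβ t)).fun_sub ((db t).fun_mul (dα t))) ?_
    rw [hm2]; ring
  have dm2 : ∀ t, HasDerivAt m2 (c * m3 t + k t * m1 t) t := fun t => by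
    rw [show m2 = fun t => a0 t * η t - e0 t * α t from funext hm2]
    refine HasDerivAt.congr_deriv (((da t).fun_mul (dη t)).fun_sub ((de t).fun_mul (dα t))) ?_
    rw [hm3, hm1]; ring
  have dm3 : ∀ t, HasDerivAt m3 (-m2 t) t := fun t => by
    rw [show m3 = fun t => b0 t * η t - e0 t * β t from funext hm3]
    refine HasDerivAt.congr_deriv (((db t).fun_mul (dη t)).fun_sub ((de t).fun_mul (dβ t))) ?_
    rw [hm2]; ring
  have dD : ∀ t, HasDerivAt D (-k1 t * m3 t) t := fun t => by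
    rw [show D = fun t => m1 t - k t * m3 t from funext hD]
    refine HasDerivAt.congr_deriv ((dm1 t).fun_sub ((dk t).fun_mul (dm3 t))) ?_
    ring
  -- values at `0`
  have iu : u 0 = 0 := by rw [hu, iα, iη]; ring
  have iv : v 0 = c + k 0 ^ 2 := by rw [hv, iβ, iη]; ring
  have i1 : m1 0 = 1 := by rw [hm1, ia, iβ, ib]; ring
  have i2 : m2 0 = 0 := by rw [hm2, iη, ie]; ring
  have i3 : m3 0 = 0 := by rw [hm3, ib, ie]; ring
  have iD : D 0 = 1 := by rw [hD, i1, i3]; ring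
  -- numerators
  obtain ⟨N3, hN3⟩ : ∃ N3 : ℝ → ℝ, ∀ t, N3 t = k1 t * β t * m1 t - 3 * (k t * u t * D t) :=
    ⟨_, fun _ => rfl⟩
  obtain ⟨N3p, hN3p⟩ : ∃ N3 : ℝ → ℝ, ∀ t, N3 t = k2 t * β t * m1 t - k1 t * u t * m1 t
      - k t * k1 t * β t * m2 t - 3 * (k1 t * u t * D t) - 3 * (k t * v t * D t)
      + 3 * (k t * k1 t * u t * m3 t) := ⟨_, fun _ => rfl⟩
  obtain ⟨N3pp, hN3pp⟩ : ∃ N3 : ℝ → ℝ, ∀ t, N3 t = k3 t * β t * m1 t - k2 t * u t * m1 t
      - k2 t * β t * (k t * m2 t) - k2 t * u t * m1 t - k1 t * v t * m1 t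
      + k1 t * u t * (k t * m2 t) - k1 t ^ 2 * β t * m2 t - k t * k2 t * β t * m2 t
      + k t * k1 t * u t * m2 t - k t * k1 t * β t * (c * m3 t + k t * m1 t)
      - 3 * k2 t * u t * D t - 3 * k1 t * v t * D t + 3 * k1 t ^ 2 * u t * m3 t
      - 3 * k1 t * v t * D t - 3 * k t * (-c * u t + k2 t * η t + 3 * k t * k1 t * β t
      - k t ^ 2 * u t) * D t + 3 * k t * v t * k1 t * m3 t + 3 * k1 t ^ 2 * u t * m3 t
      + 3 * k t * k2 t * u t * m3 t + 3 * k t * k1 t * v t * m3 t - 3 * k t * k1 t * u t * m2 t :=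
    ⟨_, fun _ => rfl⟩
  have dN3 : ∀ t, HasDerivAt N3 (N3p t) t := fun t => by
    rw [show N3 = fun t => k1 t * β t * m1 t - 3 * (k t * u t * D t) from funext hN3]
    refine HasDerivAt.congr_deriv ((((dk1 t).fun_mul (dβ' t)).fun_mul (dm1 t)).fun_sub
      ((((dk t).fun_mul (du t)).fun_mul (dD t)).const_mul 3)) ?_
    rw [hN3p]; ring
  have dN3p : ∀ t, HasDerivAt N3p (N3pp t) t := fun t => by
    rw [show N3p = fun t => k2 t * β t * m1 t - k1 t * u t * m1 t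
      - k t * k1 t * β t * m2 t - 3 * (k1 t * u t * D t) - 3 * (k t * v t * D t)
      + 3 * (k t * k1 t * u t * m3 t) from funext hN3p]
    refine HasDerivAt.congr_deriv (((((((dk2 t).fun_mul (dβ' t)).fun_mul (dm1 t)).fun_sub
      (((dk1 t).fun_mul (du t)).fun_mul (dm1 t))).fun_sub
      ((((dk t).fun_mul (dk1 t)).fun_mul (dβ' t)).fun_mul (dm2 t))).fun_sub
      ((((dk1 t).fun_mul (du t)).fun_mul (dD t)).const_mul 3)).fun_sub
      ((((dk t).fun_mul (dv t)).fun_mul (dD t)).const_mul 3) |>.fun_add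
      (((((dk t).fun_mul (dk1 t)).fun_mul (du t)).fun_mul (dm3 t)).const_mul 3)) ?_
    rw [hN3pp]; ring
  obtain ⟨N4, hN4⟩ : ∃ N4 : ℝ → ℝ, ∀ t, N4 t = -4 * (u t * N3 t * D t) + β t * N3p t * D t
      + 3 * (β t * k1 t * N3 t * m3 t) := ⟨_, fun _ => rfl⟩
  obtain ⟨N4p, hN4p⟩ : ∃ N4 : ℝ → ℝ, ∀ t, N4 t = -4 * (v t * N3 t * D t) - 4 * (u t * N3p t * D t)
      + 4 * (u t * N3 t * (k1 t * m3 t)) - u t * N3p t * D t + β t * N3pp t * D t
      - β t * N3p t * (k1 t * m3 t) - 3 * u t * k1 t * N3 t * m3 t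
      + 3 * β t * k2 t * N3 t * m3 t + 3 * β t * k1 t * N3p t * m3 t
      - 3 * β t * k1 t * N3 t * m2 t := ⟨_, fun _ => rfl⟩
  have dN4 : ∀ t, HasDerivAt N4 (N4p t) t := fun t => by
    rw [show N4 = fun t => -4 * (u t * N3 t * D t) + β t * N3p t * D t
      + 3 * (β t * k1 t * N3 t * m3 t) from funext hN4]
    refine HasDerivAt.congr_deriv ((((((du t).fun_mul (dN3 t)).fun_mul (dD t)).const_mul
      (-4)).fun_add (((dβ' t).fun_mul (dN3p t)).fun_mul (dD t))).fun_add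
      (((((dβ' t).fun_mul (dk1 t)).fun_mul (dN3 t)).fun_mul (dm3 t)).const_mul 3)) ?_
    rw [hN4p]; ring
  have j3 : N3 0 = k1 0 := by rw [hN3, iβ, i1, iu]; ring
  have j3p : N3p 0 = k2 0 - 3 * k 0 * (c + k 0 ^ 2) := by
    rw [hN3p, iβ, i1, iu, i2, i3, iv, iD]; ring
  have j3pp : N3pp 0 = k3 0 - 7 * c * k1 0 - 17 * k 0 ^ 2 * k1 0 := by
    rw [hN3pp, iβ, i1, iu, i2, i3, iv, iD, iη]; ring
  have j4 : N4 0 = k2 0 - 3 * k 0 * (c + k 0 ^ 2) := by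
    rw [hN4, iβ, iu, i3, iD, j3p]; ring
  have j4p : N4p 0 = k3 0 - 11 * c * k1 0 - 21 * k 0 ^ 2 * k1 0 := by
    rw [hN4p, iβ, iu, i2, i3, iv, iD, j3, j3p, j3pp]; ring
  -- near `0`
  have near : ∀ᶠ t in 𝓝 (0 : ℝ), β t ≠ 0 ∧ D t ≠ 0 := by
    have h1 : ∀ᶠ t in 𝓝 (0 : ℝ), β t ≠ 0 :=
      (dβ 0).continuousAt.eventually_ne (by rw [iβ]; exact one_ne_zero)
    have h2 : ∀ᶠ t in 𝓝 (0 : ℝ), D t ≠ 0 :=
      (dD 0).continuousAt.eventually_ne (by rw [iD]; exact one_ne_zero)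
    exact h1.and h2
  obtain ⟨X, hX⟩ : ∃ X : ℝ → ℝ, ∀ t, X t = -b0 t / β t := ⟨_, fun _ => rfl⟩
  have dX : ∀ᶠ t in 𝓝 (0 : ℝ), HasDerivAt X (D t / β t ^ 2) t := by
    filter_upwards [near] with t ht
    rw [show X = fun t => -b0 t / β t from funext hX]
    refine HasDerivAt.congr_deriv ((db t).fun_neg.fun_div (dβ t) ht.1) ?_
    rw [hD, hm1, hm3]
    have := ht.1
    field_simp
    ring
  have cX1 : ContinuousAt (fun t => D t / β t ^ 2) 0 :=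
    (dD 0).continuousAt.div ((dβ 0).continuousAt.pow 2) (by rw [iβ]; norm_num)
  have h0 : ∀ᶠ t in 𝓝 (0 : ℝ), HasDerivAt (fun t => e0 t + X t * η t)
      (η t * (D t / β t ^ 2)) t := by
    filter_upwards [near, dX] with t ht hx
    refine HasDerivAt.congr_deriv ((de t).fun_add (hx.fun_mul (dη t))) ?_
    rw [hX]
    have := ht.1
    field_simp
    ring
  have h1 : ∀ᶠ t in 𝓝 (0 : ℝ), HasDerivAt η
      ((k t * β t ^ 3 / D t) * (D t / β t ^ 2)) t := by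
    filter_upwards [near] with t ht
    refine HasDerivAt.congr_deriv (dη t) ?_
    have := ht.1
    have := ht.2
    field_simp
  have h2 : ∀ᶠ t in 𝓝 (0 : ℝ), HasDerivAt (fun t => k t * β t ^ 3 / D t)
      ((β t ^ 4 * N3 t / D t ^ 3) * (D t / β t ^ 2)) t := by
    filter_upwards [near] with t ht
    refine HasDerivAt.congr_deriv (((dk t).fun_mul ((dβ' t).fun_pow 3)).fun_div (dD t) ht.2) ?_
    rw [hN3]
    have h5 : k1 t * (m1 t - D t) = k1 t * k t * m3 t := by rw [hD]; ring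
    have := ht.1
    have := ht.2
    push_cast
    field_simp
    linear_combination (-β t) * h5
  have h3 : ∀ᶠ t in 𝓝 (0 : ℝ), HasDerivAt (fun t => β t ^ 4 * N3 t / D t ^ 3)
      ((β t ^ 5 * N4 t / D t ^ 5) * (D t / β t ^ 2)) t := by
    filter_upwards [near] with t ht
    refine HasDerivAt.congr_deriv ((((dβ' t).fun_pow 4).fun_mul (dN3 t)).fun_div
      ((dD t).fun_pow 3) (pow_ne_zero 3 ht.2)) ?_
    rw [hN4]
    have := ht.1
    have := ht.2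
    push_cast
    field_simp
    ring
  have h4' : ∀ᶠ t in 𝓝 (0 : ℝ), HasDerivAt (fun t => β t ^ 5 * N4 t / D t ^ 5)
      (((-5 * β t ^ 4 * u t * N4 t + β t ^ 5 * N4p t) * D t ^ 5
        + 5 * β t ^ 5 * N4 t * D t ^ 4 * (k1 t * m3 t)) / D t ^ 10) t := by
    filter_upwards [near] with t ht
    refine HasDerivAt.congr_deriv ((((dβ' t).fun_pow 5).fun_mul (dN4 t)).fun_div
      ((dD t).fun_pow 5) (pow_ne_zero 5 ht.2)) ?_
    have := ht.1
    have := ht.2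
    push_cast
    field_simp
    ring
  have h4 : ∀ᶠ t in 𝓝 (0 : ℝ), HasDerivAt (fun t => β t ^ 5 * N4 t / D t ^ 5)
      ((((-5 * β t ^ 4 * u t * N4 t + β t ^ 5 * N4p t) * D t ^ 5
        + 5 * β t ^ 5 * N4 t * D t ^ 4 * (k1 t * m3 t)) / D t ^ 10 * (β t ^ 2 / D t))
        * (D t / β t ^ 2)) t := by
    filter_upwards [near, h4'] with t ht h
    refine HasDerivAt.congr_deriv h ?_
    have := ht.1
    have := ht.2
    field_simp
  have X0 : X 0 = 0 := by rw [hX, ib]; simp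
  obtain ⟨ε', hε', hn⟩ := Metric.eventually_nhds_iff.1 near
  have key := genW (c := c) (κ := κ) (ε := min ε ε') dX cX1 (by simp [iD, iβ]) X0 h0 h1 h2 h3 h4
    (by simp [X0, ie]) iη (by simp [iβ, iD, kpos]) (lt_min hε hε') (by
      intro t₁ t₂ a1 a2 a3 a4 a5 a6 a7 a8 a9
      have b1 : β t₁ ≠ 0 := (hn (by
        rw [Real.dist_eq, sub_zero]
        exact a1.trans_le (min_le_right _ _))).1
      have b2 : β t₂ ≠ 0 := (hn (by
        rw [Real.dist_eq, sub_zero]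
        exact a2.trans_le (min_le_right _ _))).1
      refine hc t₁ t₂ (X t₁) (X t₂) (a1.trans_le (min_le_left _ _))
        (a2.trans_le (min_le_left _ _)) ?_ ?_ a3 a4 a5 a6 a7 a8 a9
      · rw [hX, div_mul_cancel₀ _ b1]
        ring
      · rw [hX, div_mul_cancel₀ _ b2]
        ring)
  simp only [iβ, iD, iu, i3, j3, j4, j4p, one_pow, mul_one, div_one, mul_zero, zero_mul,
    add_zero, zero_add] at key
  linear_combination key

end Pool.Agent.R462.EQ
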